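import Pool.Agent.HSq.Assembly

/-!
# The criterion for the homological gas regime of hard squares fails

For `n = 7`, `j = 1` and the `4 × 3` rectangle the free area is `5 < 6`, but the inclusion
`C(7;4,3) → C(7)` induces an isomorphism on first homology.
-/

namespace Pool.Agent.Results.MP_446f20_gt.GasCriterionFalse

open HSq

/-- The conjectured criterion is false. -/
theorem result :
    (¬ ∀ n j p q : ℕ, 1 ≤ n → j + 2 ≤ p → j + 2 ≤ q →
      (Function.Bijective (inclStar j n p q).hom ↔
        ((j + 1) * (j + 2) : ℤ) ≤ (p : ℤ) * q - n)) ∧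
    Function.Bijective (inclStar 1 7 4 3).hom := by
  refine ⟨fun h => ?_, incl_bijective⟩
  have h1 := (h 7 1 4 3 (by norm_num) (by norm_num) (by norm_num)).1 incl_bijective
  norm_num at h1

end Pool.Agent.Results.MP_446f20_gt.GasCriterionFalse
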